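import Pool.Agent.Helper34.PU.Goals

/-!
MP_8060f4_co, packet KY.
-/

set_option autoImplicit false

open Finset Function
open scoped Classical

namespace Pool.Agent.Helper86.PU

open Pool.Agent.Helper34.PU

lemma avg_le_of_le {α : Type} (A : Finset α) (hA : A.Nonempty) (f : α → ℝ) (c : ℝ)
    (h : ∀ i ∈ A, f i ≤ c) : avg A f ≤ c := by
  unfold avg
  have hc : (0 : ℝ) < A.card := by exact_mod_cast hA.card_pos
  rw [div_le_iff₀ hc]
  calc ∑ i ∈ A, f i ≤ ∑ _i ∈ A, c := Finset.sum_le_sum h
    _ = c * A.card := by rw [Finset.sum_const, nsmul_eq_mul, mul_comm]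

lemma avg_mem01 {α : Type} (A : Finset α) (f : α → ℝ) (h : ∀ i ∈ A, 0 ≤ f i ∧ f i ≤ 1) :
    0 ≤ avg A f ∧ avg A f ≤ 1 := by
  constructor
  · unfold avg
    exact div_nonneg (Finset.sum_nonneg fun i hi => (h i hi).1) (Nat.cast_nonneg _)
  · rcases A.eq_empty_or_nonempty with hA | hA
    · subst hA; simp [avg]
    · exact avg_le_of_le A hA f 1 fun i hi => (h i hi).2

lemma avg_sum {α ι : Type} (A : Finset α) (S : Finset ι) (f : ι → α → ℝ) :
    ∑ l ∈ S, avg A (f l) = avg A (fun i => ∑ l ∈ S, f l i) := by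
  unfold avg
  rw [← Finset.sum_div, Finset.sum_comm]

lemma avg_congr {α : Type} (A : Finset α) (f g : α → ℝ) (h : ∀ i ∈ A, f i = g i) :
    avg A f = avg A g := by
  unfold avg
  rw [Finset.sum_congr rfl h]

lemma blk_eq {T D : ℕ} (U : Finset (Fin T)) (a φ : Pt T D) (h : φ ∈ blk U a) :
    blk U φ = blk U a := by
  have h' : ∀ t ∈ U, φ t = a t := (Finset.mem_filter.mp h).2
  ext ψ
  simp only [blk, Finset.mem_filter, Finset.mem_univ, true_and]
  constructor
  · intro hh t ht; rw [hh t ht, h' t ht]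
  · intro hh t ht; rw [hh t ht, h' t ht]

lemma mem_blk_comm {T D : ℕ} (U : Finset (Fin T)) (a φ : Pt T D) :
    φ ∈ blk U a ↔ a ∈ blk U φ := by
  simp only [blk, Finset.mem_filter, Finset.mem_univ, true_and]
  constructor
  · intro hh t ht; exact (hh t ht).symm
  · intro hh t ht; exact (hh t ht).symm

lemma self_mem_blk {T D : ℕ} (U : Finset (Fin T)) (a : Pt T D) : a ∈ blk U a := by
  simp [blk]

lemma avg_blk {T D : ℕ} (U : Finset (Fin T)) (Ψ : Pt T D → ℝ) :
    avg univ (fun a : Pt T D => avg (blk U a) Ψ) = avg univ Ψ := by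
  have h1 : ∑ a : Pt T D, avg (blk U a) Ψ = ∑ φ : Pt T D, Ψ φ := by
    have e1 : ∀ a : Pt T D, avg (blk U a) Ψ =
        ∑ φ : Pt T D, if φ ∈ blk U a then Ψ φ / (blk U φ).card else 0 := by
      intro a
      unfold avg
      rw [Finset.sum_div, ← Finset.sum_filter]
      have : (univ.filter (fun φ : Pt T D => φ ∈ blk U a)) = blk U a := by
        ext φ; simp
      rw [this]
      apply Finset.sum_congr rfl
      intro φ hφ
      rw [blk_eq U a φ hφ]
    rw [Finset.sum_congr rfl (fun a _ => e1 a), Finset.sum_comm]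
    apply Finset.sum_congr rfl
    intro φ _
    have e2 : ∀ a : Pt T D, (if φ ∈ blk U a then Ψ φ / (blk U φ).card else 0) =
        if a ∈ blk U φ then Ψ φ / ((blk U φ).card : ℝ) else 0 := by
      intro a
      by_cases hh : φ ∈ blk U a
      · rw [if_pos hh, if_pos ((mem_blk_comm U a φ).mp hh)]
      · rw [if_neg hh, if_neg (fun h' => hh ((mem_blk_comm U a φ).mpr h'))]
    rw [Finset.sum_congr rfl (fun a _ => e2 a), ← Finset.sum_filter]
    have : (univ.filter (fun a : Pt T D => a ∈ blk U φ)) = blk U φ := by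
      ext ψ; simp
    rw [this, Finset.sum_const, nsmul_eq_mul]
    have hc : ((blk U φ).card : ℝ) ≠ 0 := by
      have : 0 < (blk U φ).card := Finset.card_pos.mpr ⟨φ, self_mem_blk U φ⟩
      exact_mod_cast this.ne'
    field_simp
  unfold avg at h1 ⊢
  rw [h1]

lemma cell_eq {T D N : ℕ} (x : Fin N → Pt T D) (U : Finset (Fin T)) (a φ : Pt T D)
    (h : φ ∈ blk U a) : cell x U φ = cell x U a := by
  have h' : ∀ t ∈ U, φ t = a t := (Finset.mem_filter.mp h).2
  ext i
  simp only [cell, Finset.mem_filter, Finset.mem_univ, true_and]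
  constructor
  · intro hh t ht; rw [hh t ht, h' t ht]
  · intro hh t ht; rw [hh t ht, h' t ht]

lemma Wc_mem {α : Type} {L r : ℕ} (hr : 1 ≤ r) (B : Finset α) (l1 l2 : α → Fin L)
    (col : α → α → Fin r) (c : Fin r) (a b : Fin L) :
    0 ≤ Wc B l1 l2 col c a b ∧ Wc B l1 l2 col c a b ≤ 1 := by
  unfold Wc
  split_ifs with h
  · apply avg_mem01
    intro i _
    apply avg_mem01
    intro j _
    split_ifs <;> norm_num
  · have h1 : (1 : ℝ) ≤ r := by exact_mod_cast hr
    constructor
    · positivity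
    · rw [div_le_one (by linarith)]; exact h1

lemma Ferr_abs {T D N Q r L : ℕ} (hr : 1 ≤ r) (x : Fin N → Pt T D)
    (f : Fin Q × Fin N → Fin Q × Fin N → Fin r)
    (lab : Fin Q → Finset (Fin T) → Fin N → Fin L) (U : Finset (Fin T)) (φ : Pt T D)
    (p q : Fin Q) (c : Fin r) (i j : Fin N) : |Ferr x f lab U φ p q c i j| ≤ 1 := by
  unfold Ferr
  have h := Wc_mem hr (cell x U φ) (lab p U) (lab q U) (fun i j => f (p, i) (q, j)) c
    (lab p U i) (lab q U j)
  rw [abs_le]
  constructor
  · have : (0 : ℝ) ≤ (if f (p, i) (q, j) = c then (1 : ℝ) else 0) := by split_ifs <;> norm_num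
    linarith [h.2]
  · have : (if f (p, i) (q, j) = c then (1 : ℝ) else 0) ≤ 1 := by split_ifs <;> norm_num
    linarith [h.1]

theorem ky (h : CboxStmt) : KYStmt := by
  intro β s k Q r L M T D N hM η ε' x f lab hsβ hβk hr hN hη0 hη1 hPR hcell hbox Φ hΦ part U J J'
    p q c hU hJ hJ' hpU hpJ hpJ'
  set U₀ : Finset (Fin T) := U.image (fun j => Φ 0 ⟨0, hM⟩ j) with hU₀
  set A : Fin M → Finset (Fin T) := fun l => J.image (fun j => Φ 1 l j) with hA
  set A' : Fin M → Finset (Fin T) := fun l => J'.image (fun j => Φ 2 l j) with hA'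
  have eU : ∀ l l' : Fin M, U.image (frm hM Φ part l l') = U₀ := by
    intro l l'
    apply Finset.image_congr
    intro j hj
    simp only [frm]
    rw [hpU j hj]
    simp
  have eJ : ∀ l l' : Fin M, J.image (frm hM Φ part l l') = A l := by
    intro l l'
    apply Finset.image_congr
    intro j hj
    simp only [frm]
    rw [hpJ j hj]
    simp
  have eJ' : ∀ l l' : Fin M, J'.image (frm hM Φ part l l') = A' l' := by
    intro l l'
    apply Finset.image_congr
    intro j hj
    simp only [frm]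
    rw [hpJ' j hj]
    simp
  have cU : U₀.card = s := by
    rw [hU₀, Finset.card_image_of_injective, hU]
    intro a b hab
    exact (hΦ _ _ _ _ _ _ hab).2.2
  have cA : ∀ l, (A l).card = β - s := by
    intro l
    rw [hA]
    simp only
    rw [Finset.card_image_of_injective, hJ]
    intro a b hab
    exact (hΦ _ _ _ _ _ _ hab).2.2
  have cA' : ∀ l, (A' l).card = β - s := by
    intro l
    rw [hA']
    simp only
    rw [Finset.card_image_of_injective, hJ']
    intro a b hab
    exact (hΦ _ _ _ _ _ _ hab).2.2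
  have dis : ∀ (i i' : Fin 3) (l l' : Fin M) (S S' : Finset (Fin k)), (i ≠ i' ∨ l ≠ l') →
      Disjoint (S.image (fun j => Φ i l j)) (S'.image (fun j => Φ i' l' j)) := by
    intro i i' l l' S S' hne
    rw [Finset.disjoint_left]
    intro y hy hy'
    obtain ⟨j, _, hj⟩ := Finset.mem_image.mp hy
    obtain ⟨j', _, hj'⟩ := Finset.mem_image.mp hy'
    have h3 := hΦ i l j i' l' j' (by rw [hj, hj'])
    rcases hne with hne | hne
    · exact hne h3.1
    · exact hne h3.2.1
  set B : ℝ := (M : ℝ) ^ 2 * (ε' + 2 * (√(1 / M + 4 * η) + η)) with hB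
  have key : ∀ a : Pt T D, ∑ l : Fin M, ∑ l' : Fin M, avg (blk U₀ a) (fun φ =>
      box4 (cell x (U₀ ∪ A l) φ) (cell x (U₀ ∪ A' l') φ) (Ferr x f lab U₀ φ p q c)) ≤ B := by
    intro a
    have h1 := h β (2 * k) M T D N η x hM hη0 hη1 hPR hcell U₀ a A A'
      (fun l => dis 0 1 _ _ U J (Or.inl (by decide)))
      (fun l => dis 0 2 _ _ U J' (Or.inl (by decide)))
      (fun l l' hne => dis 1 1 l l' J J (Or.inr hne))
      (fun l l' hne => dis 2 2 l l' J' J' (Or.inr hne))
      (fun l l' => dis 1 2 l l' J J' (Or.inl (by decide)))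
      (fun l => by
        have := Finset.card_union_le U₀ (A l)
        rw [cU, cA l] at this
        omega)
      (fun l => by
        have := Finset.card_union_le U₀ (A' l)
        rw [cU, cA' l] at this
        omega)
      (fun l l' => by
        have t1 := Finset.card_union_le (U₀ ∪ A l) (A l')
        have t2 := Finset.card_union_le U₀ (A l)
        rw [cU, cA l] at t2
        rw [cA l'] at t1
        omega)
      (fun l l' => by
        have t1 := Finset.card_union_le (U₀ ∪ A' l) (A' l')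
        have t2 := Finset.card_union_le U₀ (A' l)
        rw [cU, cA' l] at t2
        rw [cA' l'] at t1
        omega)
      (Ferr x f lab U₀ a p q c) (fun i j => Ferr_abs hr x f lab U₀ a p q c i j)
    have h2 := hbox U₀ a p q c cU
    have h3 : ∑ l : Fin M, ∑ l' : Fin M, avg (blk U₀ a) (fun φ =>
        box4 (cell x (U₀ ∪ A l) φ) (cell x (U₀ ∪ A' l') φ) (Ferr x f lab U₀ φ p q c)) =
        ∑ l : Fin M, ∑ l' : Fin M, avg (blk U₀ a) (fun φ =>
        box4 (cell x (U₀ ∪ A l) φ) (cell x (U₀ ∪ A' l') φ) (Ferr x f lab U₀ a p q c)) := by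
      apply Finset.sum_congr rfl
      intro l _
      apply Finset.sum_congr rfl
      intro l' _
      apply avg_congr
      intro φ hφ
      have h4 : Ferr x f lab U₀ φ p q c = Ferr x f lab U₀ a p q c := by
        funext i j
        unfold Ferr
        rw [cell_eq x U₀ a φ hφ]
      rw [h4]
    rw [h3]
    refine h1.trans ?_
    rw [hB]
    apply mul_le_mul_of_nonneg_left _ (by positivity)
    linarith
  have hne : (univ : Finset (Pt T D)).Nonempty := ⟨x ⟨0, hN⟩, Finset.mem_univ _⟩
  have e3 : ∑ l : Fin M, ∑ l' : Fin M, avg univ (fun φ : Pt T D =>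
      box4 (cell x ((U ∪ J).image (frm hM Φ part l l')) φ)
        (cell x ((U ∪ J').image (frm hM Φ part l l')) φ)
        (Ferr x f lab (U.image (frm hM Φ part l l')) φ p q c)) =
      avg univ (fun a : Pt T D => ∑ l : Fin M, ∑ l' : Fin M, avg (blk U₀ a) (fun φ =>
      box4 (cell x (U₀ ∪ A l) φ) (cell x (U₀ ∪ A' l') φ) (Ferr x f lab U₀ φ p q c))) := by
    rw [← avg_sum]
    apply Finset.sum_congr rfl
    intro l _
    rw [← avg_sum]
    apply Finset.sum_congr rfl
    intro l' _
    rw [avg_blk, Finset.image_union, Finset.image_union, eU, eJ, eJ']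
  rw [e3]
  exact avg_le_of_le univ hne _ B fun a _ => key a

end Pool.Agent.Helper86.PU
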